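import Pool.Agent.H.MP_f7849a_an.B

set_option autoImplicit false

namespace Pool.Agent.Results.MP_f7849a_an.No
open scoped Real
open MeasureTheory Set Metric

/-- three-dimensional space -/
abbrev E := EuclideanSpace ℝ (Fin 3)

/-- the sphere of directions -/
abbrev S := sphere (0 : E) 1

/-- first-exit distance -/
noncomputable def D (V : Set E) (r : E) (ω : S) : ℝ := sInf {t : ℝ | 0 < t ∧ r + t • (ω : E) ∉ V}

/-- bounded measurable solution of the integral equation -/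
def Sol (V : Set E) (l : ℝ) (M : E × S → ℝ) : Prop :=
  Measurable M ∧ (∃ C, ∀ P, |M P| ≤ C) ∧ ∀ r ∈ V, ∀ ω : S,
    M (r, ω) = 1 - Real.exp (-D V r ω) + l / (4 * π) * ∫ x in (0 : ℝ)..D V r ω,
      Real.exp (-l * x) * ∫ ω', M (r + x • (ω : E), ω') ∂(volume : Measure E).toSphere

theorem result : ∃ (V : Set E) (r : E) (ω : S), IsOpen V ∧ Bornology.IsBounded V ∧ r ∈ V ∧
    (∀ l, 0 < l → ∃ M, Sol V l M) ∧
    ∀ M : ℝ → E × S → ℝ, (∀ l, 0 < l → Sol V l (M l)) →
      ∃ c < 0, HasDerivAt (fun l => M l (r, ω)) c 1 := by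
  obtain ⟨V, ho, hb, h0, K⟩ := H.MP_f7849a_an.main
  have e : ∀ l M, Sol V l M ↔ H.MP_f7849a_an.Sol V (H.MP_f7849a_an.D V) H.MP_f7849a_an.γ
      H.MP_f7849a_an.τ l M := fun l M => by
    have : ∀ (r : E) (ω : S), 1 - Real.exp (-D V r ω) + l / (4 * π) * ∫ x in (0 : ℝ)..D V r ω,
        Real.exp (-l * x) * ∫ ω', M (r + x • (ω : E), ω') ∂(volume : Measure E).toSphere =
        H.MP_f7849a_an.s (H.MP_f7849a_an.D V) (r, ω) + H.MP_f7849a_an.T (H.MP_f7849a_an.D V)
          H.MP_f7849a_an.γ (H.MP_f7849a_an.k l) (H.MP_f7849a_an.A H.MP_f7849a_an.τ M) (r, ω) :=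
      fun r ω => by
        rw [← intervalIntegral.integral_const_mul, H.MP_f7849a_an.s, neg_one_mul]
        refine congrArg₂ _ rfl (intervalIntegral.integral_congr fun x _ => ?_)
        simp only [H.MP_f7849a_an.k, H.MP_f7849a_an.A, H.MP_f7849a_an.intτ, H.MP_f7849a_an.γ]
        ring
    simp only [Sol, this, H.MP_f7849a_an.Sol, H.MP_f7849a_an.Bm, and_assoc, Prod.forall]
    exact and_congr_right' (and_congr_right' (forall_congr' fun _ => forall_comm))
  simp only [← e] at K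
  refine ⟨V, 0, _, ho, isBounded_ball.subset hb, h0, fun l hl => ?_, K⟩
  simp only [e]
  exact H.MP_f7849a_an.exS (H.MP_f7849a_an.geo ho hb) hl

end Pool.Agent.Results.MP_f7849a_an.No
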